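import Pool.Agent.H.MP_a5725d_an.E

set_option autoImplicit false
namespace Pool.Agent.H.MP_eb20fa_an
open MeasureTheory Metric Pool.Agent.H.MP_ceba03_an ComplexConjugate Filter Topology Set
open Pool.Agent.H.MP_e9aa5f_an Pool.Agent.H.MP_c4e2dd_an Pool.Agent.H.MP_535799_an Complex
open Pool.Agent.H.MP_496271_an Pool.Agent.H.MP_a5725d_an Pool.Agent.H.MP_32de40_an Function

lemma ib {X : Type} [MeasurableSpace X] {ν : Measure X} [IsFiniteMeasure ν] {f : X → ℝ} {B : ℝ}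
    (h : Measurable f) (hb : ∀ x, |f x| ≤ B) : Integrable f ν :=
  .of_bound h.aestronglyMeasurable B (.of_forall hb)

lemma dual {ν κ : Measure T} [IsFiniteMeasure ν] [IsFiniteMeasure κ] {k : T → T → ℝ} {u : T → ℝ}
    {B : ℝ} (hk : Measurable (uncurry k)) (hb : ∀ s t, |k s t| ≤ B) (hu : Measurable u)
    (ub : ∀ t, |u t| ≤ B) {l : ℝ} (hl : 0 < l) : ∫ s, ∫ t, k s t * u t ∂κ ∂ν ≤
      l / 2 * ∫ t, u t ^ 2 ∂κ + 1 / (2 * l) * ∫ s, ∫ x, ∫ t, k s t * k x t ∂κ ∂ν ∂ν := by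
  have B0 := (abs_nonneg _).trans (ub 0)
  have mb : ∀ {a b : ℝ}, |a| ≤ B → |b| ≤ B → |a * b| ≤ B * B := fun h1 h2 => by
    rw [abs_mul]; exact mul_le_mul h1 h2 (abs_nonneg _) B0
  have i1 : Integrable (uncurry fun (p : T × T) t => k p.1 t * k p.2 t) ((ν.prod ν).prod κ) :=
    ib ((hk.comp (measurable_fst.fst.prodMk measurable_snd)).mul
      (hk.comp (measurable_fst.snd.prodMk measurable_snd))) fun p => mb (hb _ _) (hb _ _)
  have h1 : ∀ t, ∫ p : T × T, k p.1 t * k p.2 t ∂ν.prod ν = (∫ s, k s t ∂ν) ^ 2 := fun t => by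
    rw [integral_prod_mul (fun s => k s t) fun s => k s t, sq]
  have i0 : Integrable (uncurry fun s t => k s t * u t) (ν.prod κ) :=
    ib (hk.mul (hu.comp measurable_snd)) fun p => mb (hb _ _) (ub _)
  have e1 : ∫ s, ∫ x, ∫ t, k s t * k x t ∂κ ∂ν ∂ν = ∫ p : T × T, ∫ t, k p.1 t * k p.2 t ∂κ ∂ν.prod ν :=
    (integral_prod _ i1.integral_prod_left).symm
  have i2 : Integrable (fun t => ∫ p : T × T, k p.1 t * k p.2 t ∂ν.prod ν) κ := i1.integral_prod_right
  have i3 : Integrable (fun t => u t ^ 2) κ := ib (hu.pow_const 2) fun t => by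
    rw [sq]; exact mb (ub t) (ub t)
  rw [integral_integral_swap i0, e1, integral_integral_swap i1, ← integral_const_mul,
    ← integral_const_mul, ← integral_add (i3.const_mul _) (i2.const_mul _)]
  refine integral_mono i0.integral_prod_right ((i3.const_mul _).add (i2.const_mul _)) fun t => ?_
  simp only [h1, integral_mul_const]
  refine sub_nonneg.1 ((div_nonneg (sq_nonneg (l * u t - ∫ s, k s t ∂ν))
    (show 0 ≤ 2 * l by positivity)).trans_eq ?_)
  field_simp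
  ring

noncomputable def kk (a w : ℂ) : ℝ := (1 - ‖a‖ ^ 2) / ‖1 - conj a * w‖ ^ 2

lemma kk_nn {a : ℂ} (ha : ‖a‖ < 1) (w : ℂ) : 0 ≤ kk a w :=
  div_nonneg (by nlinarith [norm_nonneg a]) (by positivity)

lemma kk_le {a w : ℂ} {R : ℝ} (ha : ‖a‖ ≤ R) (hR : R < 1) (hw : ‖w‖ ≤ 1) :
    kk a w ≤ 1 / (1 - R) ^ 2 := by
  have := mge a hw
  rw [kk]
  exact div_le_div₀ zero_le_one (by linarith [sq_nonneg ‖a‖]) (pow_pos (by linarith) 2)
    (pow_le_pow_left₀ (by linarith) (by linarith) 2)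

lemma mk2 {X : Type} [MeasurableSpace X] {f g : X → ℂ} (hf : Measurable f) (hg : Measurable g) :
    Measurable fun x => kk (f x) (g x) := by unfold kk; fun_prop

lemma nsym (a w : ℂ) : ‖1 - conj a * w‖ = ‖1 - conj w * a‖ := by
  rw [← norm_conj]; simp [mul_comm]

lemma pk_kk (a : ℂ) (t : T) : PK a t = kk a (e t) := by rw [PK, kk, nc (e_norm t)]

lemma pkpk {a z : ℂ} (ha : ‖a‖ < 1) (hz : ‖z‖ < 1) :
    ∫ t, PK a t * PK z t ∂μ ≤ kk a z + kk z a := by
  have h1 : An fun w => (1 + conj a * w) / (1 - conj a * w) := fun w hw =>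
    AnalyticAt.div (by fun_prop) (by fun_prop) (mne ha (mem_closedBall_zero_iff.1 hw))
  obtain ⟨_, h2⟩ := hh_an h1
  obtain ⟨_, h3⟩ := bd_cont (φ := fun t => ((1 - ‖z‖ ^ 2) / ‖e t - z‖ ^ 2 : ℝ))
    (continuous_ofReal.comp (continuous_const.div ((e_cont.sub
      continuous_const).norm.pow 2) fun t => pow_ne_zero 2 (norm_ne_zero_iff.2 (e_ne hz t))))
  have h4 := integral_re (h2.1.mul h3).int
  rw [pois h2 (mem_ball_zero_iff.2 hz), pc_an h1 (mem_ball_zero_iff.2 hz)] at h4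
  simp only [RCLike.re_to_complex, re_mul_ofReal, re_h norm_one, norm_mul, norm_conj, e_norm,
    mul_one] at h4
  simp only [pk_kk a]
  simp only [kk, PK, nsym z a, ← add_div]
  rw [h4]
  refine div_le_div_of_nonneg_right ?_ (by positivity)
  nlinarith [mul_nonneg (show 0 ≤ 1 - ‖a‖ ^ 2 by nlinarith [norm_nonneg a])
    (show 0 ≤ 1 - ‖z‖ ^ 2 by nlinarith [norm_nonneg z])]

lemma kkkk {x y s : ℂ} (hx : ‖x‖ < 1) (hy : ‖y‖ < 1) (hs : ‖s‖ < 1) :
    kk x s * kk y s ≤ 2 * (kk y x * kk x s + kk x y * kk y s) := by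
  have h1 := norm_pos_iff.2 (mne hx hs.le)
  have h2 := norm_pos_iff.2 (mne hy hs.le)
  have h3 := norm_pos_iff.2 (mne hx hy.le)
  have h4 := mle hy hs.le
  rw [norm_div, div_le_one h2] at h4
  have h5 := norm_add_le (1 - conj x * s) (conj x * (s - y))
  rw [show 1 - conj x * s + conj x * (s - y) = 1 - conj x * y by ring, norm_mul, norm_conj] at h5
  have h6 : ‖1 - conj x * y‖ ^ 2 ≤ 2 * (‖1 - conj y * s‖ ^ 2 + ‖1 - conj x * s‖ ^ 2) := by
    nlinarith [mul_le_mul hx.le h4 (norm_nonneg _) zero_le_one, pow_le_pow_left₀ h3.le h5 2,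
      sq_nonneg (‖1 - conj y * s‖ - ‖1 - conj x * s‖), mul_nonneg (norm_nonneg x) (norm_nonneg (s - y))]
  have h7 := mul_nonneg (show 0 ≤ 1 - ‖x‖ ^ 2 by nlinarith [norm_nonneg x])
    (show 0 ≤ 1 - ‖y‖ ^ 2 by nlinarith [norm_nonneg y])
  simp only [kk, nsym y x]
  refine sub_nonneg.1 ((div_nonneg (mul_nonneg h7 (sub_nonneg.2 h6)) (show 0 ≤ ‖1 - conj x * y‖ ^ 2 *
    ‖1 - conj x * s‖ ^ 2 * ‖1 - conj y * s‖ ^ 2 by positivity)).trans_eq ?_)
  generalize ‖1 - conj x * s‖ = p at *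
  generalize ‖1 - conj y * s‖ = q at *
  generalize ‖1 - conj x * y‖ = r at *
  field_simp

lemma key {ν : Measure T} [IsFiniteMeasure ν] {L H : T → T → ℝ} {c : ℝ}
    (i1 : Integrable (uncurry L) (ν.prod ν)) (h0 : ∀ s x, 0 ≤ H s x)
    (h : ∀ s x, H s x ≤ c * (L s x + L x s)) :
    ∫ s, ∫ x, H s x ∂ν ∂ν ≤ 2 * c * ∫ s, ∫ x, L s x ∂ν ∂ν := by
  have i2 : Integrable (fun p : T × T => c * (L p.1 p.2 + L p.2 p.1)) (ν.prod ν) :=
    (i1.add i1.swap).const_mul c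
  refine (integral_mono_of_nonneg (.of_forall fun s => integral_nonneg (h0 s)) i2.integral_prod_left
    ((i2.prod_right_ae).mono fun s hs => integral_mono_of_nonneg (.of_forall (h0 s)) hs
      (.of_forall (h s)))).trans (le_of_eq ?_)
  have e1 : ∫ p : T × T, L p.1 p.2 + L p.2 p.1 ∂ν.prod ν = _ := integral_add i1 i1.swap
  have e2 : ∫ p : T × T, L p.2 p.1 ∂ν.prod ν = ∫ p : T × T, L p.1 p.2 ∂ν.prod ν :=
    integral_prod_swap (uncurry L)
  have e3 : ∫ p : T × T, L p.1 p.2 ∂ν.prod ν = ∫ s, ∫ x, L s x ∂ν ∂ν := integral_prod _ i1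
  rw [← integral_prod _ i2, integral_const_mul, e1, e2, e3]
  ring

theorem carl {ν : Measure T} [IsFiniteMeasure ν] {w : T → ℂ} (hw : Measurable w) {R : ℝ} (R1 : R < 1)
    (hR : ∀ s, ‖w s‖ ≤ R) {A : ℝ} (A0 : 0 < A) (hA : ∀ a, ‖a‖ < 1 → ∫ s, kk a (w s) ∂ν ≤ A)
    {F : ℂ → ℂ} (hF : An F) (mF : Continuous F) :
    ∫ s, ‖F (w s)‖ ^ 2 ∂ν ≤ 8 * A * ∫ t, ‖F (e t)‖ ^ 2 ∂μ := by
  obtain ⟨B, hB⟩ := (isCompact_closedBall (0 : ℂ) 1).exists_bound_of_continuousOn hF.continuousOn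
  have w1 : ∀ s, ‖w s‖ < 1 := fun s => (hR s).trans_lt R1
  obtain ⟨G, hG⟩ : ∃ G : T → ℝ, ∀ s, G s = ‖F (w s)‖ := ⟨_, fun _ => rfl⟩
  simp only [← hG]
  have mG : Measurable G := funext hG ▸ (mF.measurable.comp hw).norm
  have G0 : ∀ s, 0 ≤ G s := fun s => hG s ▸ norm_nonneg _
  have GB : ∀ s, G s ≤ B := fun s => hG s ▸ hB _ (mem_closedBall_zero_iff.2 (w1 s).le)
  have B0 := (G0 0).trans (GB 0)
  set D := 1 / (1 - R) ^ 2
  have D0 : 0 ≤ D := by positivity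
  have b1 : ∀ s, ∀ z : ℂ, ‖z‖ ≤ 1 → |G s * kk (w s) z| ≤ B * D + B := fun s z hz => by
    rw [abs_of_nonneg (mul_nonneg (G0 s) (kk_nn (w1 s) z))]
    linarith [mul_le_mul (GB s) (kk_le (hR s) R1 hz) (kk_nn (w1 s) z) B0]
  have b2 : ∀ z : ℂ, ‖z‖ ≤ 1 → |‖F z‖| ≤ B * D + B := fun z hz => by
    rw [abs_norm]
    linarith [hB z (mem_closedBall_zero_iff.2 hz), mul_nonneg B0 D0]
  have b3 : ∀ s, |G s| ≤ B * D + B := fun s => hG s ▸ b2 _ (w1 s).le
  have m1 : ∀ {v : T → ℂ}, Measurable v → Measurable (uncurry fun s t => G s * kk (w s) (v t)) :=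
    fun {v} hv => show Measurable fun p : T × T => G p.1 * kk (w p.1) (v p.2) from
      (mG.comp measurable_fst).mul (mk2 (hw.comp measurable_fst) (hv.comp measurable_snd))
  have i1 : Integrable (uncurry fun s x => G s * kk (w s) (w x) * G x) (ν.prod ν) :=
    ib (B := (B * D + B) * (B * D + B)) ((m1 hw).mul (mG.comp measurable_snd)) fun p => by
      rw [uncurry, abs_mul]
      exact mul_le_mul (b1 _ _ (w1 _).le) (b3 _) (abs_nonneg _) (by positivity)
  obtain ⟨Q, hQ⟩ : ∃ Q, Q = ∫ s, ∫ x, G s * kk (w s) (w x) * G x ∂ν ∂ν := ⟨_, rfl⟩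
  have nn : ∀ s x (z : ℂ), 0 ≤ G s * kk (w s) z * (G x * kk (w x) z) := fun s x z =>
    mul_nonneg (mul_nonneg (G0 _) (kk_nn (w1 _) _)) (mul_nonneg (G0 _) (kk_nn (w1 _) _))
  have i3 : ∀ s, Integrable (fun t => kk (w s) (w t)) ν := fun s =>
    ib (mk2 measurable_const hw) fun t =>
      (abs_of_nonneg (kk_nn (w1 s) _)).trans_le (kk_le (hR s) R1 (w1 t).le)
  have k1 : ∫ s, ∫ x, ∫ t, G s * kk (w s) (w t) * (G x * kk (w x) (w t)) ∂ν ∂ν ∂ν ≤
      2 * (2 * A) * Q := by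
    rw [hQ]
    refine key (L := fun s x => G s * kk (w s) (w x) * G x) (H := fun s x =>
      ∫ t, G s * kk (w s) (w t) * (G x * kk (w x) (w t)) ∂ν) i1
      (fun s x => integral_nonneg fun t => nn s x (w t)) fun s x => ?_
    simp only [mul_mul_mul_comm (G s), integral_const_mul]
    have h6 := integral_mono_of_nonneg (μ := ν) (f := fun t => kk (w s) (w t) * kk (w x) (w t))
      (.of_forall fun t => mul_nonneg (kk_nn (w1 s) _) (kk_nn (w1 x) _))
      ((((i3 s).const_mul _).add ((i3 x).const_mul _)).const_mul 2)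
      (.of_forall fun t => kkkk (w1 s) (w1 x) (w1 t))
    rw [integral_const_mul, integral_add' ((i3 s).const_mul _) ((i3 x).const_mul _),
      integral_const_mul, integral_const_mul] at h6
    have h7 := mul_le_mul_of_nonneg_left (hA _ (w1 s)) (kk_nn (w1 x) (w s))
    have h8 := mul_le_mul_of_nonneg_left (hA _ (w1 x)) (kk_nn (w1 s) (w x))
    exact (mul_le_mul_of_nonneg_left (h6.trans (mul_le_mul_of_nonneg_left (add_le_add h7 h8)
      zero_le_two)) (mul_nonneg (G0 s) (G0 x))).trans (le_of_eq (by ring))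
  have k2 : ∫ s, ∫ x, ∫ t, G s * kk (w s) (e t) * (G x * kk (w x) (e t)) ∂μ ∂ν ∂ν ≤ 2 * 1 * Q := by
    rw [hQ]
    refine key (L := fun s x => G s * kk (w s) (w x) * G x) (H := fun s x =>
      ∫ t, G s * kk (w s) (e t) * (G x * kk (w x) (e t)) ∂μ) i1
      (fun s x => integral_nonneg fun t => nn s x (e t)) fun s x => ?_
    simp only [← pk_kk, mul_mul_mul_comm (G s), integral_const_mul]
    exact (mul_le_mul_of_nonneg_left (pkpk (w1 s) (w1 x)) (mul_nonneg (G0 s) (G0 x))).trans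
      (le_of_eq (by ring))
  have mu : Measurable fun t => ‖F (e t)‖ := (mF.measurable.comp e_cont.measurable).norm
  have h1 := dual (ν := ν) (κ := ν) (m1 hw) (fun s t => b1 s _ (w1 t).le) mG b3
    (l := 4 * A) (by positivity)
  have h2 := dual (ν := ν) (κ := μ) (m1 e_cont.measurable) (fun s t => b1 s _ (e_norm t).le) mu
    (fun t => b2 _ (e_norm t).le) (l := 8 * A) (by positivity)
  have i4 : Integrable (uncurry fun s t => G s * kk (w s) (e t) * ‖F (e t)‖) (ν.prod μ) :=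
    ib (B := (B * D + B) * (B * D + B)) ((m1 e_cont.measurable).mul (mu.comp measurable_snd))
      fun p => (abs_mul _ _).trans_le (mul_le_mul (b1 _ _ (e_norm _).le) (b2 _ (e_norm _).le)
        (abs_nonneg _) (by positivity))
  have h3 : ∫ s, G s ^ 2 ∂ν ≤ ∫ s, ∫ t, G s * kk (w s) (e t) * ‖F (e t)‖ ∂μ ∂ν := by
    have i5 : Integrable (fun s => ∫ t, G s * kk (w s) (e t) * ‖F (e t)‖ ∂μ) ν := i4.integral_prod_left
    refine integral_mono_of_nonneg (.of_forall fun s => sq_nonneg _) i5 (.of_forall fun s => ?_)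
    obtain ⟨_, c1⟩ := hh_an hF
    have c2 := pois c1 (mem_ball_zero_iff.2 (w1 s))
    rw [pc_an hF (mem_ball_zero_iff.2 (w1 s))] at c2
    have c3 : G s ≤ ∫ t, kk (w s) (e t) * ‖F (e t)‖ ∂μ := by
      rw [hG, ← c2]
      refine (norm_integral_le_integral_norm _).trans (le_of_eq ?_)
      congr 1; funext t
      rw [norm_mul, norm_real, ← pk_kk, mul_comm]
      exact congrArg (· * _) (Real.norm_of_nonneg (pk_nn (w1 s) t))
    simpa only [mul_assoc, integral_const_mul, sq] using mul_le_mul_of_nonneg_left c3 (G0 s)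
  rw [← hQ] at h1
  have h4 := mul_le_mul_of_nonneg_left k1 (show 0 ≤ 1 / (2 * (4 * A)) by positivity)
  have h5 := mul_le_mul_of_nonneg_left k2 (show 0 ≤ 1 / (2 * (8 * A)) by positivity)
  rw [show 1 / (2 * (4 * A)) * (2 * (2 * A) * Q) = Q / 2 by field_simp; ring] at h4
  rw [show 1 / (2 * (8 * A)) * (2 * 1 * Q) = Q / (8 * A) by field_simp] at h5
  have h6 : Q / (8 * A) ≤ (∫ s, G s ^ 2 ∂ν) / 2 := by
    rw [div_le_iff₀ (by positivity)]; linarith
  linarith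

end Pool.Agent.H.MP_eb20fa_an
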