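import Pool.Agent.H.MP_eb20fa_an.A

set_option autoImplicit false
namespace Pool.Agent.H.MP_eb20fa_an
open MeasureTheory Metric Pool.Agent.H.MP_ceba03_an ComplexConjugate Filter Topology Set
open Pool.Agent.H.MP_e9aa5f_an Pool.Agent.H.MP_c4e2dd_an Pool.Agent.H.MP_535799_an Complex
open Pool.Agent.H.MP_496271_an Pool.Agent.H.MP_a5725d_an Pool.Agent.H.MP_32de40_an Function
open ContinuousLinearMap

lemma nrm {b : H2} {G : T → ℂ} {B : ℝ} (h1 : ∀ z : ℂ, ‖z‖ < 1 → ‖ev b z‖ ≤ B)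
    (h2 : ∀ᵐ t ∂μ, Tendsto (fun r : ℝ => ev b (r * e t)) (𝓝[<] 1) (𝓝 (G t))) :
    ‖b‖ ^ 2 = ∫ t, ‖G t‖ ^ 2 ∂μ := by
  have I := Ioo_mem_nhdsLT (show (0 : ℝ) < 1 by norm_num)
  rw [← (nsq b).tsum_eq]
  refine tendsto_nhds_unique (l := 𝓝[<] (1 : ℝ)) ((tendsto_tsum_of_dominated_convergence
    (f := fun (r : ℝ) j => ‖b j‖ ^ 2 * (r ^ j) ^ 2) (nsq b).summable (fun j => by
      simpa using ((tid.pow j).pow 2).const_mul (‖b j‖ ^ 2)) (Eventually.mono I fun r hr j => ?_)).congr'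
    (Eventually.mono I fun r hr => (par (nb b) hr).tsum_eq))
    (tendsto_integral_filter_of_dominated_convergence (fun _ => B ^ 2)
      (Eventually.mono I fun r hr => (((an_dil (ev_diff b) hr).2.co.comp_continuous e_cont
        e_mem).norm.pow 2).aestronglyMeasurable) (Eventually.mono I fun r hr => .of_forall fun t => ?_)
      (integrable_const _) (h2.mono fun t ht => ht.norm.pow 2))
  · rw [Real.norm_of_nonneg (by positivity)]
    exact mul_le_of_le_one_right (by positivity) (pow_le_one₀ (pow_nonneg hr.1.le _)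
      (pow_le_one₀ hr.1.le hr.2.le))
  · rw [Real.norm_of_nonneg (by positivity)]
    exact pow_le_pow_left₀ (norm_nonneg _) (h1 _ ((rn hr t).trans_lt hr.2)) 2

variable {M C : H2 →L[ℂ] H2} {φ : ℂ → ℂ} {g : T → ℂ}

lemma Mn (hM : ∀ a, ∀ z : ℂ, ‖z‖ < 1 → ev (M a) z = z * ev a z) (n : ℕ) (a : H2) {z : ℂ}
    (hz : ‖z‖ < 1) : ev ((M ^ n) a) z = z ^ n * ev a z := by
  induction n with
  | zero => simp
  | succ n ih => rw [pow_succ', ContinuousLinearMap.mul_apply, hM _ z hz, ih, pow_succ', mul_assoc]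

lemma nC (hm : ∀ z : ℂ, ‖z‖ < 1 → ‖φ z‖ < 1)
    (hg : ∀ᵐ t ∂μ, Tendsto (fun r : ℝ => φ (r * e t)) (𝓝[<] 1) (𝓝 (g t))) (g1 : ∀ t, ‖g t‖ ≤ 1)
    {a b : H2} {F : ℂ → ℂ} (hF : An F) (h : ∀ z : ℂ, ‖z‖ < 1 → ev b z = F (φ z)) :
    ‖b‖ ^ 2 = ∫ t, ‖F (g t)‖ ^ 2 ∂μ := by
  obtain ⟨B, hB⟩ := (isCompact_closedBall (0 : ℂ) 1).exists_bound_of_continuousOn hF.continuousOn
  refine nrm (B := B) (fun z hz => h z hz ▸ hB _ (mem_closedBall_zero_iff.2 (hm z hz).le))
    (hg.mono fun t ht => ((hF _ (mem_closedBall_zero_iff.2 (g1 t))).continuousAt.tendsto.comp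
      ht).congr' (Eventually.mono (Ioo_mem_nhdsLT one_pos) fun r hr =>
        (h _ ((rn hr t).trans_lt hr.2)).symm))

lemma quad (M C : H2 →L[ℂ] H2) (n : ℕ) (a : H2) :
    RCLike.re (inner ℂ ((adjoint M ^ n * (adjoint C * C) * M ^ n) a) a) = ‖C ((M ^ n) a)‖ ^ 2 := by
  rw [← star_eq_adjoint M, ← star_pow, star_eq_adjoint]
  simp only [ContinuousLinearMap.mul_apply, adjoint_inner_left, inner_self_eq_norm_sq]

theorem main (hm : ∀ z : ℂ, ‖z‖ < 1 → ‖φ z‖ < 1) (mg : Measurable g) (g1 : ∀ t, ‖g t‖ ≤ 1)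
    (hg : ∀ᵐ t ∂μ, Tendsto (fun r : ℝ => φ (r * e t)) (𝓝[<] 1) (𝓝 (g t)))
    (hM : ∀ a, ∀ z : ℂ, ‖z‖ < 1 → ev (M a) z = z * ev a z)
    (hC : ∀ a, ∀ z : ℂ, ‖z‖ < 1 → ev (C a) z = ev a (φ z)) :
    (∃ A, Tendsto (fun n : ℕ => adjoint M ^ n * (adjoint C * C) * M ^ n) atTop (𝓝 A)) ↔
    ∀ ε > 0, ∃ ρ < 1, ∀ a : ℂ, ρ ≤ ‖a‖ → ‖a‖ < 1 → ∫ t in {t | ‖g t‖ < 1}, kk a (g t) ∂μ ≤ ε := by
  have mD : MeasurableSet {t | ‖g t‖ < 1} := measurableSet_lt mg.norm measurable_const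
  have ik : ∀ a : ℂ, ‖a‖ < 1 → Integrable (fun t => kk a (g t)) μ := fun a ha =>
    ib (mk2 measurable_const mg) fun t => (abs_of_nonneg (kk_nn ha _)).trans_le (kk_le le_rfl ha (g1 t))
  have p1 : ∀ n t, (‖g t‖ ^ n) ^ 2 ≤ 1 := fun n t =>
    pow_le_one₀ (by positivity) (pow_le_one₀ (norm_nonneg _) (g1 t))
  have q1 : ∀ {a : H2} {F : ℂ → ℂ}, An F → (∀ z : ℂ, ‖z‖ < 1 → ev a z = F z) → ∀ n,
      ‖C ((M ^ n) a)‖ ^ 2 = ∫ t, (‖g t‖ ^ n) ^ 2 * ‖F (g t)‖ ^ 2 ∂μ := fun {a F} hF h n => by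
    rw [nC (a := a) hm hg g1 ((analyticOnNhd_id.pow n).mul hF) fun z hz => by
      rw [hC _ z hz, Mn hM n a (hm z hz), h _ (hm z hz)]; rfl]
    simp [mul_pow]
  have q2 : ∀ {F : ℂ → ℂ}, An F → Measurable F → Integrable (fun t => ‖F (g t)‖ ^ 2) μ ∧
      ∀ n, Integrable (fun t => (‖g t‖ ^ n) ^ 2 * ‖F (g t)‖ ^ 2) μ := fun {F} hF mF => by
    obtain ⟨B, hB⟩ := (isCompact_closedBall (0 : ℂ) 1).exists_bound_of_continuousOn hF.continuousOn
    have i : Integrable (fun t => ‖F (g t)‖ ^ 2) μ := ib ((mF.comp mg).norm.pow_const 2) fun t =>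
      (abs_of_nonneg (sq_nonneg _)).trans_le (pow_le_pow_left₀ (norm_nonneg _)
        (hB _ (mem_closedBall_zero_iff.2 (g1 t))) 2)
    exact ⟨i, fun n => i.bdd_mul (c := 1) ((mg.norm.pow_const n).pow_const 2).aestronglyMeasurable
      (.of_forall fun t => (Real.norm_of_nonneg (sq_nonneg _)).trans_le (p1 n t))⟩
  have q3 : ∀ n m a, RCLike.re (inner ℂ ((adjoint M ^ n * (adjoint C * C) * M ^ n -
      adjoint M ^ m * (adjoint C * C) * M ^ m) a) a) = ‖C ((M ^ n) a)‖ ^ 2 - ‖C ((M ^ m) a)‖ ^ 2 :=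
    fun n m a => by rw [ContinuousLinearMap.sub_apply, inner_sub_left, map_sub, quad, quad]
  constructor
  · rintro ⟨A, hA⟩ ε hε
    obtain ⟨N, hN⟩ := Metric.cauchySeq_iff'.1 hA.cauchySeq (ε / 4) (by positivity)
    obtain ⟨σ, s1, s2⟩ : ∃ σ : ℝ, σ ∈ Ioo (0 : ℝ) 1 ∧ 1 / 2 < (σ ^ N) ^ 2 :=
      (Eventually.and (Ioo_mem_nhdsLT one_pos) (((tid.pow N).pow 2).eventually
        (lt_mem_nhds (by norm_num)))).exists
    have s3 := sub_pos.2 s1.2
    refine ⟨1 - ε / 4 * (1 - σ) ^ 2, sub_lt_self _ (by positivity), fun a a1 ha => ?_⟩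
    have hF : An fun z => (1 - conj a * z)⁻¹ := fun w hw =>
      AnalyticAt.inv (by fun_prop) (mne ha (mem_closedBall_zero_iff.1 hw))
    obtain ⟨i1, i2⟩ := q2 hF (by fun_prop)
    have a2 : 0 < 1 - ‖a‖ ^ 2 := by nlinarith [norm_nonneg a]
    have g0 : HasSum (fun k => ‖conj a ^ k‖ ^ 2) (1 - ‖a‖ ^ 2)⁻¹ := by
      simpa only [norm_pow, norm_conj, ← pow_mul, mul_comm] using
        hasSum_geometric_of_lt_one (sq_nonneg ‖a‖) (by linarith)
    let b : H2 := ⟨fun k => conj a ^ k, memℓp_gen (by simpa using g0.summable)⟩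
    have b1 : ‖b‖ ^ 2 = (1 - ‖a‖ ^ 2)⁻¹ := (nsq b).unique g0
    have b2 : ∀ z : ℂ, ‖z‖ < 1 → ev b z = (1 - conj a * z)⁻¹ := fun z hz => by
      rw [← tsum_geometric_of_norm_lt_one (by
        rw [norm_mul, norm_conj]; exact mul_lt_one_of_nonneg_of_lt_one_left (norm_nonneg _) ha hz.le)]
      exact tsum_congr fun k => (mul_pow _ _ _).symm
    have c1 : ∫ t in {t | ‖g t‖ < 1}, (‖g t‖ ^ N) ^ 2 * ‖(1 - conj a * g t)⁻¹‖ ^ 2 ∂μ ≤
        ε / 4 * (1 - ‖a‖ ^ 2)⁻¹ := by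
      have t := tendsto_integral_of_dominated_convergence (μ := μ.restrict {t | ‖g t‖ < 1})
        (F := fun m t => (‖g t‖ ^ m) ^ 2 * ‖(1 - conj a * g t)⁻¹‖ ^ 2) (f := fun _ => 0) _
        (fun m => (i2 m).1.restrict) i1.restrict (fun m => .of_forall fun t =>
          (Real.norm_of_nonneg (by positivity)).trans_le (mul_le_of_le_one_left (sq_nonneg _) (p1 m t)))
        ((ae_restrict_mem mD).mono fun t ht => by
          simpa only [ne_eq, OfNat.ofNat_ne_zero, not_false_eq_true, zero_pow, zero_mul] using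
            ((tendsto_pow_atTop_nhds_zero_of_lt_one (norm_nonneg _) ht).pow 2).mul_const
              (‖(1 - conj a * g t)⁻¹‖ ^ 2))
      have t2 := t.const_sub (∫ t in {t | ‖g t‖ < 1}, (‖g t‖ ^ N) ^ 2 * ‖(1 - conj a * g t)⁻¹‖ ^ 2 ∂μ)
      rw [integral_zero, sub_zero] at t2
      refine le_of_tendsto t2 ((eventually_ge_atTop N).mono fun m hm => ?_)
      rw [← integral_sub (i2 N).restrict (i2 m).restrict, setIntegral_eq_integral_of_forall_compl_eq_zero
        fun t ht => by rw [le_antisymm (g1 t) (not_lt.1 ht)]; simp, integral_sub (i2 N) (i2 m),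
        ← q1 hF b2, ← q1 hF b2, ← q3, ← b1]
      have d1 := hN m hm
      rw [dist_comm, dist_eq_norm] at d1
      refine (RCLike.re_le_norm _).trans ((norm_inner_le_norm _ _).trans ?_)
      rw [sq, ← mul_assoc (ε / 4)]
      exact mul_le_mul_of_nonneg_right ((le_opNorm _ _).trans
        (mul_le_mul_of_nonneg_right d1.le (norm_nonneg _))) (norm_nonneg _)
    refine (setIntegral_mono (ik a ha).restrict ((((i2 N).const_mul (2 * (1 - ‖a‖ ^ 2))).add
      (integrable_const (ε / 2))).restrict) fun t => ?_).trans ?_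
    · have d1 : kk a (g t) = (1 - ‖a‖ ^ 2) * ‖(1 - conj a * g t)⁻¹‖ ^ 2 := by
        rw [kk, norm_inv, inv_pow, div_eq_mul_inv]
      have d2 := kk_nn ha (g t)
      simp only [Pi.add_apply]
      rcases le_total σ ‖g t‖ with d3 | d3
      · have d4 : (σ ^ N) ^ 2 ≤ (‖g t‖ ^ N) ^ 2 := pow_le_pow_left₀ (pow_nonneg s1.1.le _)
          (pow_le_pow_left₀ s1.1.le d3 N) 2
        rw [d1] at d2 ⊢
        nlinarith [mul_le_mul_of_nonneg_right (s2.le.trans d4) d2]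
      · refine le_add_of_nonneg_of_le (by positivity) ?_
        have d4 := mge (g t) ha.le
        rw [kk, nsym, div_le_iff₀ (pow_pos (by linarith) 2)]
        nlinarith [pow_le_pow_left₀ s3.le (show 1 - σ ≤ ‖1 - conj (g t) * a‖ by linarith) 2,
          norm_nonneg a]
    · rw [integral_add' ((i2 N).const_mul _).restrict (integrable_const _), integral_const_mul,
        setIntegral_const, smul_eq_mul]
      have d1 := mul_le_mul_of_nonneg_left c1 (show 0 ≤ 2 * (1 - ‖a‖ ^ 2) by positivity)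
      rw [show 2 * (1 - ‖a‖ ^ 2) * (ε / 4 * (1 - ‖a‖ ^ 2)⁻¹) = ε / 2 by field_simp; ring] at d1
      linarith [mul_le_of_le_one_left (half_pos hε).le (measureReal_le_one (μ := μ) (s := {t | ‖g t‖ < 1}))]
  intro H
  refine cauchySeq_tendsto_of_complete (Metric.cauchySeq_iff'.2 fun ε hε => ?_)
  obtain ⟨ρ, r1, hρ⟩ := H (ε / 32) (by positivity)
  have r2 := sub_pos.2 r1
  obtain ⟨σ, s0, s1, s2⟩ : ∃ σ : ℝ, 0 ≤ σ ∧ σ < 1 ∧ μ.real {t | σ ≤ ‖g t‖ ∧ ‖g t‖ < 1} ≤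
      ε / 32 * (1 - ρ) ^ 2 := by
    have t := tendsto_measure_iInter_atTop (μ := μ)
      (s := fun k : ℕ => {t | 1 - 1 / (k + 1 : ℝ) ≤ ‖g t‖ ∧ ‖g t‖ < 1})
      (fun k => ((measurableSet_le measurable_const mg.norm).inter mD).nullMeasurableSet)
      (fun k l h t ht => ⟨le_trans (by gcongr) ht.1, ht.2⟩) ⟨0, measure_ne_top _ _⟩
    rw [eq_empty_of_forall_notMem (s := ⋂ _, _) fun t ht => by
      obtain ⟨k, hk⟩ := exists_nat_one_div_lt (sub_pos.2 (mem_iInter.1 ht 0).2)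
      linarith [(mem_iInter.1 ht k).1], measure_empty] at t
    obtain ⟨k, hk⟩ := (t.eventually (gt_mem_nhds (ENNReal.ofReal_pos.2
      (show 0 < ε / 32 * (1 - ρ) ^ 2 by positivity)))).exists
    exact ⟨_, sub_nonneg.2 (div_le_one_of_le₀ (by simp) (by positivity)),
      sub_lt_self _ (by positivity), ENNReal.toReal_le_of_le_ofReal (by positivity) hk.le⟩
  have e1 : ∀ {F : ℂ → ℂ}, An F → Continuous F → ∫ t in {t | σ ≤ ‖g t‖ ∧ ‖g t‖ < 1}, ‖F (g t)‖ ^ 2 ∂μ ≤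
      ε / 4 * ∫ t, ‖F (e t)‖ ^ 2 ∂μ := fun {F} hF cF => by
    set s : ℕ → Set T := fun k => {t | σ ≤ ‖g t‖ ∧ ‖g t‖ ≤ 1 - 1 / (k + 1 : ℝ)}
    have ms : ∀ k, MeasurableSet (s k) := fun k =>
      (measurableSet_le measurable_const mg.norm).inter (measurableSet_le mg.norm measurable_const)
    have k1 : ∀ k : ℕ, 1 - 1 / (k + 1 : ℝ) < 1 := fun k => sub_lt_self _ (by positivity)
    have t := tendsto_setIntegral_of_monotone ms (fun k l h t ht => ⟨ht.1, ht.2.trans (by gcongr)⟩)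
      (q2 hF cF.measurable).1.integrableOn
    rw [show ⋃ k, s k = {t | σ ≤ ‖g t‖ ∧ ‖g t‖ < 1} from Subset.antisymm
      (iUnion_subset fun k t ht => ⟨ht.1, ht.2.trans_lt (k1 k)⟩) fun t ht => by
        obtain ⟨k, hk⟩ := exists_nat_one_div_lt (sub_pos.2 ht.2)
        exact mem_iUnion.2 ⟨k, ht.1, by linarith⟩] at t
    refine le_of_tendsto' t fun k => ?_
    have := carl (ν := μ.restrict (s k)) (mg.indicator (ms k)) (k1 k) (fun t => by
      by_cases h : t ∈ s k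
      · rw [indicator_of_mem h]; exact h.2
      · rw [indicator_of_notMem h, norm_zero]
        exact sub_nonneg.2 (div_le_one_of_le₀ (by simp) (by positivity))) (A := ε / 32)
      (by positivity) (fun a ha => ?_) hF cF
    · rw [setIntegral_congr_fun (ms k) fun t ht => by simp only [indicator_of_mem ht]; rfl] at this
      exact this.trans_eq (by ring)
    rw [setIntegral_congr_fun (ms k) fun t ht => by simp only [indicator_of_mem ht]; rfl]
    rcases le_total ρ ‖a‖ with h | h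
    · exact (setIntegral_mono_set (ik a ha).integrableOn (.of_forall fun t => kk_nn ha _)
        (HasSubset.Subset.eventuallyLE fun t ht => ht.2.trans_lt (k1 k))).trans (hρ a h ha)
    · refine (setIntegral_mono (ik a ha).restrict (integrable_const (1 / (1 - ρ) ^ 2))
        fun t => kk_le h r1 (g1 t)).trans ?_
      rw [setIntegral_const, smul_eq_mul, mul_one_div, div_le_iff₀ (by positivity)]
      exact (measureReal_mono (by exact fun t ht => ⟨ht.1, ht.2.trans_lt (k1 k)⟩)).trans s2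
  obtain ⟨N, hN⟩ := (((((tendsto_pow_atTop_nhds_zero_of_lt_one s0 s1).pow 2).mul_const
    (‖C‖ ^ 2)).eventually (gt_mem_nhds (show 0 ^ 2 * ‖C‖ ^ 2 < ε / 4 by
      simpa using hε)))).exists
  refine ⟨N, fun m hm => ?_⟩
  have e2 : ∀ a : H2, |‖C ((M ^ m) a)‖ ^ 2 - ‖C ((M ^ N) a)‖ ^ 2| ≤ ε / 2 * ‖a‖ ^ 2 := fun a => by
    have t := lp.hasSum_single (p := 2) (by simp) a
    refine le_of_tendsto_of_tendsto' (((((C.continuous.comp (M ^ m).continuous).tendsto _).comp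
      t).norm.pow 2).sub ((((C.continuous.comp (M ^ N).continuous).tendsto _).comp t).norm.pow 2)).abs
      ((t.norm.pow 2).const_mul _) fun s => ?_
    simp only [Function.comp]
    generalize hb : (∑ k ∈ s, lp.single 2 k (a k) : H2) = b
    have cF : Continuous fun z : ℂ => ∑ k ∈ s, a k * z ^ k := by fun_prop
    have hF : An fun z : ℂ => ∑ k ∈ s, a k * z ^ k := fun z _ =>
      Differentiable.analyticAt (by fun_prop) z
    have b1 : ∀ k, b k = if k ∈ s then a k else 0 := fun k => by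
      rw [← hb, lp.coeFn_sum, Finset.sum_apply]
      simp [Pi.single_apply]
    have b2 : ∀ z : ℂ, ‖z‖ < 1 → ev b z = ∑ k ∈ s, a k * z ^ k := fun z _ => by
      rw [ev, tsum_eq_sum (s := s) fun k hk => by simp [b1, hk]]
      exact Finset.sum_congr rfl fun k hk => by simp [b1, hk]
    obtain ⟨i1, i2⟩ := q2 hF cF.measurable
    have f1 := e1 hF cF
    rw [← nC (φ := id) (a := b) (fun _ h => h) (.of_forall fun t => radt (e t))
      (fun t => (e_norm t).le) hF b2] at f1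
    have f2 := q1 hF b2 0
    simp only [pow_zero, one_pow, one_mul, ContinuousLinearMap.one_apply] at f2
    have mS : MeasurableSet {t | σ ≤ ‖g t‖ ∧ ‖g t‖ < 1} :=
      (measurableSet_le measurable_const mg.norm).inter mD
    rw [abs_sub_comm, q1 hF b2, q1 hF b2, ← integral_sub (i2 N) (i2 m), ← Real.norm_eq_abs]
    refine (norm_integral_le_of_norm_le ((i1.const_mul ((σ ^ N) ^ 2)).add (i1.indicator mS))
      (.of_forall fun t => ?_)).trans ?_
    · have d1 : (‖g t‖ ^ m) ^ 2 ≤ (‖g t‖ ^ N) ^ 2 :=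
        pow_le_pow_left₀ (by positivity) (pow_le_pow_of_le_one (norm_nonneg _) (g1 t) hm) 2
      rw [← sub_mul, Real.norm_of_nonneg (mul_nonneg (sub_nonneg.2 d1) (sq_nonneg _)), Pi.add_apply]
      by_cases h : t ∈ {t | σ ≤ ‖g t‖ ∧ ‖g t‖ < 1}
      · rw [indicator_of_mem h]
        refine le_add_of_nonneg_of_le (by positivity) (mul_le_of_le_one_left (sq_nonneg _) ?_)
        linarith [p1 N t, sq_nonneg (‖g t‖ ^ m)]
      rw [indicator_of_notMem h, add_zero]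
      refine mul_le_mul_of_nonneg_right ?_ (sq_nonneg _)
      rcases (g1 t).eq_or_lt with d2 | d2
      · simp [d2, sq_nonneg]
      · have d3 : (‖g t‖ ^ N) ^ 2 ≤ (σ ^ N) ^ 2 := by
          gcongr
          exact (not_le.1 fun d3 => h ⟨d3, d2⟩).le
        linarith [sq_nonneg (‖g t‖ ^ m)]
    · rw [integral_add' (i1.const_mul _) (i1.indicator mS), integral_const_mul, integral_indicator mS,
        ← f2]
      have d1 := pow_le_pow_left₀ (norm_nonneg _) (C.le_opNorm b) 2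
      nlinarith [mul_le_mul_of_nonneg_left d1 (sq_nonneg (σ ^ N)),
        mul_le_mul_of_nonneg_right hN.le (sq_nonneg ‖b‖)]
  have sa : ∀ n, IsSelfAdjoint (adjoint M ^ n * (adjoint C * C) * M ^ n) := fun n => by
    rw [← star_eq_adjoint M, ← star_pow, ← star_eq_adjoint C]
    exact (IsSelfAdjoint.star_mul_self C).conjugate' _
  rw [dist_eq_norm, norm_eq_iSup_rayleighQuotient _ ((sa m).sub (sa N)).isSymmetric]
  refine (Real.iSup_le (fun a => ?_) (half_pos hε).le).trans_lt (half_lt_self hε)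
  rw [rayleighQuotient, reApplyInnerSelf_apply, q3, abs_div, abs_sq]
  exact div_le_of_le_mul₀ (sq_nonneg _) (half_pos hε).le (e2 a)

end Pool.Agent.H.MP_eb20fa_an
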